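import Mathlib

/-!
# A height bound for equivalence of top-down tree transducers depending only on the states

Two deterministic top-down tree transducers with `n₁` and `n₂` states which agree on all input
trees of height at most `H n₁ n₂` are equivalent; here `H` is an explicit function of the numbers
of states only.
-/

namespace Pool.Agent.Results.MP_460c01_lc.StateHeightBound

open Finset

/-- Terms over the ranked alphabet `(D, rk)` with variables in `X`. -/
inductive Term (D : Type) (rk : D → ℕ) (X : Type) : Type
  | var (x : X) : Term D rk X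
  | app (d : D) (ts : Fin (rk d) → Term D rk X) : Term D rk X

/-- Trees over the ranked alphabet `(D, rk)`. -/
abbrev Tree (D : Type) (rk : D → ℕ) : Type := Term D rk Empty

/-- The height: the number of nodes on a longest path from the root to a leaf. -/
def Term.height {D : Type} {rk : D → ℕ} {X : Type} : Term D rk X → ℕ
  | .var _ => 1
  | .app _ ts => 1 + Finset.univ.sup fun i => (ts i).height

open Classical in
/-- A family of partially defined values gives a partially defined family. -/
noncomputable def optSeq {n : ℕ} {T : Type} (f : Fin n → Option T) : Option (Fin n → T) :=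
  if h : ∀ i, (f i).isSome = true then some fun i => (f i).get (h i) else none

/-- The value of a term when the variables have the (possibly undefined) values `g x`; it is
undefined as soon as a variable occurring in the term has an undefined value. -/
noncomputable def Term.ev {D : Type} {rk : D → ℕ} {X : Type} (g : X → Option (Tree D rk)) :
    Term D rk X → Option (Tree D rk)
  | .var x => g x
  | .app d ts => (optSeq fun i => (ts i).ev g).map (Term.app d)

/-- A deterministic top-down tree transducer from trees over `(A, rA)` to trees over `(D, rD)`: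
for every state `q` and every input symbol `a` there is at most one rule
`q(a(x_1, ..., x_k)) → ζ`, where `ζ` is a term over the output alphabet whose variables are
the pairs `(q', i)`, standing for `q'(x_i)`. -/
structure Transducer (A : Type) (rA : A → ℕ) (D : Type) (rD : D → ℕ) where
  Q : Type
  fin : Fintype Q
  init : Q
  rule : Q → (a : A) → Option (Term D rD (Q × Fin (rA a)))

variable {A : Type} {rA : A → ℕ} {D : Type} {rD : D → ℕ}

instance (M : Transducer A rA D rD) : Fintype M.Q := M.fin

/-- The (possibly undefined) result of rewriting `q(s)`. -/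
noncomputable def Transducer.out (M : Transducer A rA D rD) : Tree A rA → M.Q → Option (Tree D rD)
  | .var x => x.elim
  | .app a ts => fun q => (M.rule q a).bind fun ζ => ζ.ev fun p => M.out (ts p.2) p.1

/-- The partial function realized by the transducer. -/
noncomputable def Transducer.real (M : Transducer A rA D rD) (s : Tree A rA) :
    Option (Tree D rD) := M.out s M.init

/-! ### Terms -/

section terms
variable {X Y : Type}

lemma optSeq_eq_some {n : ℕ} {T : Type} {f : Fin n → Option T} {g : Fin n → T} :
    optSeq f = some g ↔ ∀ i, f i = some (g i) := by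
  unfold optSeq
  split
  · next h =>
    constructor
    · intro e i
      have e' : (fun i => (f i).get (h i)) = g := Option.some.inj e
      rw [← e']
      simp
    · intro e
      congr 1
      funext i
      simp [e i]
  · next h =>
    constructor
    · intro e; exact absurd e (by simp)
    · intro e
      exact absurd (fun i => by rw [e i]; rfl) h

lemma isSome_optSeq {n : ℕ} {T : Type} {f : Fin n → Option T} :
    (optSeq f).isSome = true ↔ ∀ i, (f i).isSome = true := by
  unfold optSeq
  split
  · next h => simp [h]
  · next h => simp [h]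

lemma ev_app_eq_some {g : X → Option (Tree D rD)} {d : D} {ts : Fin (rD d) → Term D rD X}
    {w : Tree D rD} : (Term.app d ts).ev g = some w ↔
      ∃ ws, w = Term.app d ws ∧ ∀ i, (ts i).ev g = some (ws i) := by
  rw [Term.ev, Option.map_eq_some_iff]
  constructor
  · rintro ⟨ws, h1, h2⟩
    exact ⟨ws, h2.symm, optSeq_eq_some.mp h1⟩
  · rintro ⟨ws, h1, h2⟩
    exact ⟨ws, optSeq_eq_some.mpr h2, h1.symm⟩

/-- definedness depends only on the set of defined variables -/
lemma isSome_ev (g g' : X → Option (Tree D rD)) (h : ∀ x, (g x).isSome = (g' x).isSome)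
    (t : Term D rD X) : (t.ev g).isSome = (t.ev g').isSome := by
  induction t with
  | var x => exact h x
  | app d ts ih =>
    rw [Term.ev, Term.ev, Option.isSome_map, Option.isSome_map, Bool.eq_iff_iff, isSome_optSeq,
      isSome_optSeq]
    simp only [ih]

/-- substitution -/
def Term.subst (f : X → Term D rD Y) : Term D rD X → Term D rD Y
  | .var x => f x
  | .app d ts => .app d fun i => (ts i).subst f

lemma ev_subst (f : X → Term D rD Y) (g : Y → Option (Tree D rD)) (t : Term D rD X) :
    (t.subst f).ev g = t.ev fun x => (f x).ev g := by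
  induction t with
  | var x => rfl
  | app d ts ih =>
    rw [Term.subst, Term.ev, Term.ev]
    congr 2
    funext i
    exact ih i

/-- ground terms -/
def ground (t : Tree D rD) : Term D rD Y := t.subst Empty.elim

lemma ev_ground (g : Y → Option (Tree D rD)) (t : Tree D rD) : (ground t : Term D rD Y).ev g = some t := by
  rw [ground, ev_subst]
  induction t with
  | var x => exact x.elim
  | app d ts ih =>
    rw [ev_app_eq_some]
    exact ⟨ts, rfl, ih⟩

end terms

/-! ### Equational theories -/

section theory
variable {Q : Type}

/-- extend a partial valuation by an always undefined variable -/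
def ext (v : Q → Option (Tree D rD)) : Option Q → Option (Tree D rD)
  | none => none
  | some q => v q

/-- the equation `t = t'` holds for all valuations of the set `S` -/
def Eqv (S : Set (Q → Option (Tree D rD))) (t t' : Term D rD (Option Q)) : Prop :=
  ∀ v ∈ S, t.ev (ext v) = t'.ev (ext v)

lemma Eqv.mono {S S' : Set (Q → Option (Tree D rD))} (h : S ⊆ S') {t t' : Term D rD (Option Q)}
    (he : Eqv S' t t') : Eqv S t t' := fun v hv => he v (h hv)

/-- If `S ⊆ S'` consist of valuations with the same domain, `S` is nonempty, and `S`, `S'` have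
the same reducible variables and the same pairs of equal variables, then they satisfy the same
equations. -/
lemma theory_eq {S S' : Set (Q → Option (Tree D rD))} (hsub : S ⊆ S') (hne : S.Nonempty)
    (hdom : ∀ v ∈ S', ∀ v' ∈ S', ∀ q, (v q).isSome = (v' q).isSome)
    (hirr : ∀ a : Option Q, (∃ d ts, Eqv S (.var a) (.app d ts)) →
      ∃ d ts, Eqv S' (.var a) (.app d ts))
    (hpair : ∀ a b : Option Q, Eqv S (.var a) (.var b) → Eqv S' (.var a) (.var b))
    (t t' : Term D rD (Option Q)) (h : Eqv S t t') : Eqv S' t t' := by
  obtain ⟨v₀, hv₀⟩ := hne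
  have hdom' : ∀ v ∈ S', ∀ (u : Term D rD (Option Q)),
      (u.ev (ext v)).isSome = (u.ev (ext v₀)).isSome := by
    intro v hv u
    apply isSome_ev
    intro x
    cases x with
    | none => rfl
    | some q => exact hdom v hv v₀ (hsub hv₀) q
  -- the defined case
  have key : ∀ (w : Tree D rD) (t t' : Term D rD (Option Q)), t.ev (ext v₀) = some w →
      Eqv S t t' → Eqv S' t t' := by
    intro w
    induction w with
    | var x => exact x.elim
    | app d ws ih =>
      -- both terms start with a symbol
      have C1 : ∀ d₁ (us : Fin (rD d₁) → Term D rD (Option Q)) d₂ us',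
          (Term.app d₁ us).ev (ext v₀) = some (.app d ws) →
          Eqv S (.app d₁ us) (.app d₂ us') → Eqv S' (.app d₁ us) (.app d₂ us') := by
        intro d₁ us d₂ us' h1 h2
        have h3 : (Term.app d₂ us').ev (ext v₀) = some (.app d ws) := by
          rw [← h2 v₀ hv₀]; exact h1
        obtain ⟨ws₁, e1, e2⟩ := ev_app_eq_some.mp h1
        obtain ⟨ws₂, e3, e4⟩ := ev_app_eq_some.mp h3
        injection e1 with e5 e6
        subst e5
        rw [heq_eq_eq] at e6
        subst e6
        injection e3 with e7 e8
        subst e7
        rw [heq_eq_eq] at e8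
        subst e8
        -- the children
        have hch : ∀ i, Eqv S (us i) (us' i) := by
          intro i v hv
          have g1 : ((Term.app d us).ev (ext v)).isSome = true := by
            rw [hdom' v (hsub hv), h1]; rfl
          obtain ⟨w, hw⟩ := Option.isSome_iff_exists.mp g1
          have hw' : (Term.app d us').ev (ext v) = some w := by rw [← h2 v hv]; exact hw
          obtain ⟨x₁, f1, f2⟩ := ev_app_eq_some.mp hw
          obtain ⟨x₂, f3, f4⟩ := ev_app_eq_some.mp hw'
          rw [f1] at f3
          injection f3 with f5 f6
          rw [f2 i, f4 i, f6]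
        intro v hv
        rw [Term.ev, Term.ev]
        congr 2
        funext i
        exact ih i (us i) (us' i) (e2 i) (hch i) v hv
      have C2 : ∀ (a : Option Q) d₂ us', (Term.var a).ev (ext v₀) = some (.app d ws) →
          Eqv S (.var a) (.app d₂ us') → Eqv S' (.var a) (.app d₂ us') := by
        intro a d₂ us' h1 h2
        obtain ⟨d₃, us₃, h3⟩ := hirr a ⟨d₂, us', h2⟩
        have h4 : Eqv S (.app d₃ us₃) (.app d₂ us') := fun v hv =>
          ((h3 v (hsub hv)).symm.trans (h2 v hv))
        have h5 : (Term.app d₃ us₃).ev (ext v₀) = some (.app d ws) := by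
          rw [← h3 v₀ (hsub hv₀)]; exact h1
        have h6 := C1 _ _ _ _ h5 h4
        exact fun v hv => (h3 v hv).trans (h6 v hv)
      intro t t' h1 h2
      cases t with
      | var a =>
        cases t' with
        | var b => exact hpair a b h2
        | app d₂ us' => exact C2 a d₂ us' h1 h2
      | app d₁ us =>
        cases t' with
        | var b =>
          have h3 : (Term.var b).ev (ext v₀) = some (.app d ws) := by
            rw [← h2 v₀ hv₀]; exact h1
          have h4 := C2 b d₁ us h3 fun v hv => (h2 v hv).symm
          exact fun v hv => (h4 v hv).symm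
        | app d₂ us' => exact C1 _ _ _ _ h1 h2
  cases h0 : t.ev (ext v₀) with
  | some w => exact key w t t' h0 h
  | none =>
    have h1 : t'.ev (ext v₀) = none := by rw [← h v₀ hv₀]; exact h0
    intro v hv
    have e1 := hdom' v hv t
    have e2 := hdom' v hv t'
    rw [h0] at e1
    rw [h1] at e2
    rw [Option.isSome_none, Option.isSome_eq_false_iff, Option.isNone_iff_eq_none] at e1 e2
    rw [e1, e2]

variable [Fintype Q]

open Classical in
/-- the potential of a set of valuations -/
noncomputable def pot (S : Set (Q → Option (Tree D rD))) : ℕ :=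
  (if S.Nonempty then 1 else 0) +
    (Finset.univ.filter fun a : Option Q =>
      ¬ ∃ d ts, Eqv S (.var a) (.app d ts)).card +
    (Finset.univ.filter fun p : Option Q × Option Q => ¬ Eqv S (.var p.1) (.var p.2)).card

open Classical in
lemma pot_le (S : Set (Q → Option (Tree D rD))) :
    pot S ≤ 1 + (Fintype.card Q + 1) + (Fintype.card Q + 1) ^ 2 := by
  unfold pot
  have h1 : (if S.Nonempty then 1 else 0) ≤ 1 := by split <;> omega
  have h2 := Finset.card_filter_le (Finset.univ : Finset (Option Q))
    (fun a : Option Q => ¬ ∃ d ts, Eqv S (.var a) (.app d ts))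
  have h3 := Finset.card_filter_le (Finset.univ : Finset (Option Q × Option Q))
    (fun p : Option Q × Option Q => ¬ Eqv S (.var p.1) (.var p.2))
  rw [Finset.card_univ, Fintype.card_option] at h2
  rw [Finset.card_univ, Fintype.card_prod, Fintype.card_option, ← sq] at h3
  omega

open Classical in
lemma pot_mono {S S' : Set (Q → Option (Tree D rD))} (h : S ⊆ S') : pot S ≤ pot S' := by
  unfold pot
  refine Nat.add_le_add (Nat.add_le_add ?_ ?_) ?_
  · split
    · next hn => rw [if_pos (hn.mono h)]
    · exact Nat.zero_le _
  · apply Finset.card_le_card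
    intro a ha
    rw [Finset.mem_filter] at ha ⊢
    refine ⟨ha.1, fun ⟨d, ts, he⟩ => ha.2 ⟨d, ts, he.mono h⟩⟩
  · apply Finset.card_le_card
    intro a ha
    rw [Finset.mem_filter] at ha ⊢
    exact ⟨ha.1, fun he => ha.2 (he.mono h)⟩

open Classical in
lemma of_pot_eq {S S' : Set (Q → Option (Tree D rD))} (h : S ⊆ S') (he : pot S = pot S') :
    (S'.Nonempty → S.Nonempty) ∧
    (∀ a : Option Q, (∃ d ts, Eqv S (.var a) (.app d ts)) →
      ∃ d ts, Eqv S' (.var a) (.app d ts)) ∧
    (∀ a b : Option Q, Eqv S (.var a) (.var b) → Eqv S' (.var a) (.var b)) := by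
  have l1 : (if S.Nonempty then 1 else 0) ≤ (if S'.Nonempty then 1 else 0) := by
    split
    · next hn => rw [if_pos (hn.mono h)]
    · exact Nat.zero_le _
  have s2 : (Finset.univ.filter fun a : Option Q => ¬ ∃ d ts, Eqv S (.var a) (.app d ts)) ⊆
      (Finset.univ.filter fun a : Option Q => ¬ ∃ d ts, Eqv S' (.var a) (.app d ts)) := by
    intro a ha
    rw [Finset.mem_filter] at ha ⊢
    refine ⟨ha.1, fun ⟨d, ts, he⟩ => ha.2 ⟨d, ts, he.mono h⟩⟩
  have s3 : (Finset.univ.filter fun p : Option Q × Option Q => ¬ Eqv S (.var p.1) (.var p.2)) ⊆
      (Finset.univ.filter fun p : Option Q × Option Q => ¬ Eqv S' (.var p.1) (.var p.2)) := by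
    intro a ha
    rw [Finset.mem_filter] at ha ⊢
    exact ⟨ha.1, fun he => ha.2 (he.mono h)⟩
  have l2 := Finset.card_le_card s2
  have l3 := Finset.card_le_card s3
  unfold pot at he
  refine ⟨fun hn => ?_, fun a ha => ?_, fun a b hab => ?_⟩
  · by_contra hcon
    rw [if_neg hcon, if_pos hn] at he
    omega
  · have e2 := Finset.eq_of_subset_of_card_le s2 (by omega)
    by_contra hcon
    have : a ∈ (Finset.univ.filter fun a : Option Q => ¬ ∃ d ts, Eqv S (.var a) (.app d ts)) := by
      rw [e2, Finset.mem_filter]
      exact ⟨Finset.mem_univ _, hcon⟩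
    exact (Finset.mem_filter.mp this).2 ha
  · have e3 := Finset.eq_of_subset_of_card_le s3 (by omega)
    by_contra hcon
    have : (a, b) ∈ (Finset.univ.filter fun p : Option Q × Option Q =>
        ¬ Eqv S (.var p.1) (.var p.2)) := by
      rw [e3, Finset.mem_filter]
      exact ⟨Finset.mem_univ _, hcon⟩
    exact (Finset.mem_filter.mp this).2 hab

end theory

/-! ### Families of partial functions given by rules -/

section rules

/-- rules without initial state -/
abbrev Rules (Q A : Type) (rA : A → ℕ) (D : Type) (rD : D → ℕ) : Type :=
  Q → (a : A) → Option (Term D rD (Q × Fin (rA a)))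

variable {Q : Type} (R : Rules Q A rA D rD)

/-- evaluation of the rules -/
noncomputable def run : Tree A rA → Q → Option (Tree D rD)
  | .var x => x.elim
  | .app a ts => fun q => (R q a).bind fun ζ => ζ.ev fun p => run (ts p.2) p.1

lemma run_app (a : A) (ts : Fin (rA a) → Tree A rA) (q : Q) : run R (.app a ts) q =
    (R q a).bind fun ζ => ζ.ev fun p => run R (ts p.2) p.1 := rfl

/-- the set of states with a defined result -/
noncomputable def dom (s : Tree A rA) : Q → Bool := fun q => (run R s q).isSome

/-- the valuations given by trees of height at most `h` and type `T` -/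
def lev (h : ℕ) (T : Q → Bool) : Set (Q → Option (Tree D rD)) :=
  {v | ∃ s : Tree A rA, s.height ≤ h ∧ dom R s = T ∧ v = run R s}

lemma lev_mono {h h' : ℕ} (hh : h ≤ h') (T : Q → Bool) : lev R h T ⊆ lev R h' T := by
  rintro v ⟨s, h1, h2, h3⟩
  exact ⟨s, h1.trans hh, h2, h3⟩

lemma dom_app (a : A) (ts ts' : Fin (rA a) → Tree A rA) (h : ∀ i, dom R (ts i) = dom R (ts' i)) :
    dom R (.app a ts) = dom R (.app a ts') := by
  funext q
  show (run R (.app a ts) q).isSome = (run R (.app a ts') q).isSome
  rw [run_app, run_app]
  cases R q a with
  | none => rfl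
  | some ζ =>
    have hp : ∀ p : Q × Fin (rA a), (run R (ts p.2) p.1).isSome = (run R (ts' p.2) p.1).isSome :=
      fun p => congrFun (h p.2) p.1
    exact isSome_ev _ _ hp ζ

open Classical in
/-- the substitution expressing the valuation of `a(ts)` through that of the `i`-th subtree -/
noncomputable def sub (a : A) (ts : Fin (rA a) → Tree A rA) (i : Fin (rA a)) :
    Option Q → Term D rD (Option Q)
  | none => .var none
  | some q =>
    match R q a with
    | none => .var none
    | some ζ => ζ.subst fun p => if p.2 = i then .var (some p.1) else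
      match run R (ts p.2) p.1 with
      | none => .var none
      | some u => ground u

lemma ev_sub (a : A) (ts : Fin (rA a) → Tree A rA) (i : Fin (rA a)) (u : Tree A rA)
    (x : Option Q) : (sub R a ts i x).ev (ext (run R u)) =
      ext (run R (.app a (Function.update ts i u))) x := by
  cases x with
  | none => rfl
  | some q =>
    have h1 : ext (run R (.app a (Function.update ts i u))) (some q) =
        run R (.app a (Function.update ts i u)) q := rfl
    rw [h1, run_app]
    unfold sub
    cases hR : R q a with
    | none => simp only [hR]; rfl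
    | some ζ =>
      simp only [hR, Option.bind_some]
      rw [ev_subst]
      congr 1
      funext p
      by_cases hp : p.2 = i
      · rw [if_pos hp, hp, Function.update_self]
        rfl
      · rw [if_neg hp, Function.update_of_ne hp]
        cases hr : run R (ts p.2) p.1 with
        | none => rfl
        | some w => exact ev_ground _ _

/-- If the theories and the nonemptiness of all types agree at levels `h` and `h + 1` then the
equations at level `h` hold for all trees. -/
lemma stable (h : ℕ) (hne : ∀ T : Q → Bool, (lev R (h + 1) T).Nonempty → (lev R h T).Nonempty)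
    (heq : ∀ (T : Q → Bool) (t t' : Term D rD (Option Q)), Eqv (lev R h T) t t' →
      Eqv (lev R (h + 1) T) t t') (s : Tree A rA) :
    (lev R h (dom R s)).Nonempty ∧ ∀ t t' : Term D rD (Option Q),
      Eqv (lev R h (dom R s)) t t' → t.ev (ext (run R s)) = t'.ev (ext (run R s)) := by
  classical
  induction s with
  | var x => exact x.elim
  | app a ss ih =>
    -- low representatives of the subtrees
    have hlow : ∀ i, ∃ l : Tree A rA, l.height ≤ h ∧ dom R l = dom R (ss i) := by
      intro i
      obtain ⟨v, l, h1, h2, -⟩ := (ih i).1
      exact ⟨l, h1, h2⟩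
    choose l hl1 hl2 using hlow
    have hheight : ∀ ts : Fin (rA a) → Tree A rA, (∀ i, (ts i).height ≤ h) →
        (Term.app a ts : Tree A rA).height ≤ h + 1 := by
      intro ts hts
      rw [Term.height, add_comm]
      exact Nat.add_le_add_right (Finset.sup_le fun i _ => hts i) 1
    refine ⟨hne _ ⟨_, .app a l, hheight l hl1, dom_app R a l ss hl2, rfl⟩, ?_⟩
    intro t t' htt
    have htt' := heq _ t t' htt
    have key : ∀ (J : Finset (Fin (rA a))) (ts : Fin (rA a) → Tree A rA),
        (∀ i, dom R (ts i) = dom R (ss i)) → (∀ i ∉ J, (ts i).height ≤ h) →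
        (∀ i ∈ J, ts i = ss i) →
        t.ev (ext (run R (.app a ts))) = t'.ev (ext (run R (.app a ts))) := by
      intro J
      induction J using Finset.induction_on with
      | empty =>
        intro ts h1 h2 _
        exact htt' _ ⟨.app a ts, hheight ts fun i => h2 i (Finset.notMem_empty i),
          dom_app R a ts ss h1, rfl⟩
      | insert i J hi ihJ =>
        intro ts h1 h2 h3
        have hE : Eqv (lev R h (dom R (ss i))) (t.subst (sub R a ts i))
            (t'.subst (sub R a ts i)) := by
          rintro v ⟨u, hu1, hu2, rfl⟩
          rw [ev_subst, ev_subst]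
          simp only [ev_sub]
          apply ihJ (Function.update ts i u)
          · intro j
            by_cases hj : j = i
            · subst hj; rw [Function.update_self]; exact hu2
            · rw [Function.update_of_ne hj]; exact h1 j
          · intro j hj
            by_cases hji : j = i
            · subst hji; rw [Function.update_self]; exact hu1
            · rw [Function.update_of_ne hji]
              exact h2 j (fun hmem => (Finset.mem_insert.mp hmem).elim hji hj)
          · intro j hj
            have hji : j ≠ i := fun h => hi (h ▸ hj)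
            rw [Function.update_of_ne hji]
            exact h3 j (Finset.mem_insert_of_mem hj)
        have h4 := (ih i).2 _ _ hE
        rw [ev_subst, ev_subst] at h4
        simp only [ev_sub] at h4
        have h5 : Function.update ts i (ss i) = ts := by
          rw [← h3 i (Finset.mem_insert_self i J), Function.update_eq_self]
        rw [h5] at h4
        exact h4
    exact key Finset.univ ss (fun _ => rfl) (fun i hi => absurd (Finset.mem_univ i) hi)
      (fun _ _ => rfl)

/-- The level at which the theories become stable is bounded in terms of the number of states. -/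
lemma exists_stable [Fintype Q] : ∃ h ≤ 2 ^ Fintype.card Q *
      (1 + (Fintype.card Q + 1) + (Fintype.card Q + 1) ^ 2),
    (∀ T : Q → Bool, (lev R (h + 1) T).Nonempty → (lev R h T).Nonempty) ∧
    ∀ (T : Q → Bool) (t t' : Term D rD (Option Q)), Eqv (lev R h T) t t' →
      Eqv (lev R (h + 1) T) t t' := by
  classical
  set B := 2 ^ Fintype.card Q * (1 + (Fintype.card Q + 1) + (Fintype.card Q + 1) ^ 2) with hB
  let Φ : ℕ → ℕ := fun h => ∑ T : Q → Bool, pot (lev R h T)
  have hΦB : ∀ h, Φ h ≤ B := by
    intro h
    calc Φ h ≤ ∑ _T : Q → Bool, (1 + (Fintype.card Q + 1) + (Fintype.card Q + 1) ^ 2) :=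
          Finset.sum_le_sum fun T _ => pot_le _
      _ = B := by
          rw [Finset.sum_const, Finset.card_univ, Fintype.card_fun, Fintype.card_bool,
            smul_eq_mul]
  have hmono : ∀ h, Φ h ≤ Φ (h + 1) := fun h =>
    Finset.sum_le_sum fun T _ => pot_mono (lev_mono R (Nat.le_succ h) T)
  obtain ⟨h, hhB, hh⟩ : ∃ h ≤ B, Φ h = Φ (h + 1) := by
    by_contra hcon
    push Not at hcon
    have : ∀ h ≤ B + 1, h ≤ Φ h := by
      intro h
      induction h with
      | zero => intro _; exact Nat.zero_le _
      | succ h ih =>
        intro hh
        have h1 := ih (by omega)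
        have h2 := hmono h
        have h3 := hcon h (by omega)
        omega
    have h1 := this (B + 1) le_rfl
    have h2 := hΦB (B + 1)
    omega
  have hall : ∀ T : Q → Bool, pot (lev R h T) = pot (lev R (h + 1) T) := by
    intro T
    exact (Finset.sum_eq_sum_iff_of_le fun T _ => pot_mono (lev_mono R (Nat.le_succ h) T)).mp hh T
      (Finset.mem_univ T)
  refine ⟨h, hhB, fun T => (of_pot_eq (lev_mono R (Nat.le_succ h) T) (hall T)).1,
    fun T t t' htt => ?_⟩
  obtain ⟨h1, h2, h3⟩ := of_pot_eq (lev_mono R (Nat.le_succ h) T) (hall T)
  rcases Set.eq_empty_or_nonempty (lev R (h + 1) T) with he | hne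
  · rw [he]
    intro v hv
    exact absurd hv (Set.notMem_empty v)
  · refine theory_eq (lev_mono R (Nat.le_succ h) T) (h1 hne) ?_ h2 h3 t t' htt
    rintro v ⟨s, -, hs, rfl⟩ v' ⟨s', -, hs', rfl⟩ q
    exact (congrFun hs q).trans (congrFun hs' q).symm

end rules

/-! ### The theorem -/

/-- the rules of two transducers together -/
def join (M₁ M₂ : Transducer A rA D rD) : Rules (M₁.Q ⊕ M₂.Q) A rA D rD
  | .inl q, a => (M₁.rule q a).map (Term.subst fun p => .var (.inl p.1, p.2))
  | .inr q, a => (M₂.rule q a).map (Term.subst fun p => .var (.inr p.1, p.2))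

lemma run_inl (M₁ M₂ : Transducer A rA D rD) (s : Tree A rA) (q : M₁.Q) :
    run (join M₁ M₂) s (.inl q) = M₁.out s q := by
  induction s generalizing q with
  | var x => exact x.elim
  | app a ts ih =>
    have h1 : M₁.out (.app a ts) q = (M₁.rule q a).bind fun ζ => ζ.ev fun p =>
        M₁.out (ts p.2) p.1 := rfl
    rw [h1, run_app, join]
    cases M₁.rule q a with
    | none => rfl
    | some ζ =>
      simp only [Option.map_some, Option.bind_some]
      rw [ev_subst]
      congr 1
      funext p
      exact ih p.2 p.1

lemma run_inr (M₁ M₂ : Transducer A rA D rD) (s : Tree A rA) (q : M₂.Q) :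
    run (join M₁ M₂) s (.inr q) = M₂.out s q := by
  induction s generalizing q with
  | var x => exact x.elim
  | app a ts ih =>
    have h1 : M₂.out (.app a ts) q = (M₂.rule q a).bind fun ζ => ζ.ev fun p =>
        M₂.out (ts p.2) p.1 := rfl
    rw [h1, run_app, join]
    cases M₂.rule q a with
    | none => rfl
    | some ζ =>
      simp only [Option.map_some, Option.bind_some]
      rw [ev_subst]
      congr 1
      funext p
      exact ih p.2 p.1

/-- The height bound. -/
def H (n₁ n₂ : ℕ) : ℕ := 2 ^ (n₁ + n₂) * (1 + (n₁ + n₂ + 1) + (n₁ + n₂ + 1) ^ 2)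

/-- **Main theorem.** There is a function `H` of two natural numbers such that for all ranked
alphabets `(A, rA)`, `(D, rD)` and all deterministic top-down tree transducers `M₁`, `M₂` from
trees over `(A, rA)` to trees over `(D, rD)`, with `n₁` and `n₂` states: if `M₁` and `M₂` agree on
every input tree of height at most `H n₁ n₂` then they realize the same partial function. -/
theorem result : ∃ H : ℕ → ℕ → ℕ, ∀ (A : Type) (rA : A → ℕ) (D : Type) (rD : D → ℕ)
    (M₁ M₂ : Transducer A rA D rD),
    (∀ s : Tree A rA, s.height ≤ H (Fintype.card M₁.Q) (Fintype.card M₂.Q) →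
      M₁.real s = M₂.real s) → M₁.real = M₂.real := by
  refine ⟨H, fun A rA D rD M₁ M₂ hagree => ?_⟩
  funext s
  obtain ⟨h, hh, h1, h2⟩ := exists_stable (join M₁ M₂)
  rw [Fintype.card_sum] at hh
  have h3 := (stable (join M₁ M₂) h h1 h2 s).2 (.var (some (.inl M₁.init)))
    (.var (some (.inr M₂.init))) (by
      rintro v ⟨u, hu, -, rfl⟩
      show run (join M₁ M₂) u (.inl M₁.init) = run (join M₁ M₂) u (.inr M₂.init)
      rw [run_inl, run_inr]
      exact hagree u (hu.trans hh))
  have h4 : run (join M₁ M₂) s (.inl M₁.init) = run (join M₁ M₂) s (.inr M₂.init) := h3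
  rw [run_inl, run_inr] at h4
  exact h4

end Pool.Agent.Results.MP_460c01_lc.StateHeightBound
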